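import Mathlib
import Pool.Agent.P.MP_271f9a_pr.Cov

namespace Pool.Agent.Results.MP_271f9a_pr.KappaPos

open Matrix Filter Topology

/-- Covariance of fractional Brownian motion with Hurst parameter `H`. -/
noncomputable def fbmCov (H s t : ℝ) : ℝ :=
  (1 / 2) * (|s| ^ (2 * H) + |t| ^ (2 * H) - |s - t| ^ (2 * H))

/-- The `N × N` matrix with entries `R_H (i, j)`, `1 ≤ i, j ≤ N`, viewed as a complex matrix. -/
noncomputable def covMatrix (H : ℝ) (N : ℕ) : Matrix (Fin N) (Fin N) ℂ :=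
  Matrix.of fun i j => ((fbmCov H ((i : ℝ) + 1) ((j : ℝ) + 1) : ℝ) : ℂ)

/-- `κ(γ, N)`: the infimum over nonzero complex vectors of the generalized Rayleigh quotient of
the Hadamard square of `R_H` against `R_H`, with `H = γ / 2`. -/
noncomputable def kappaN (γ : ℝ) (N : ℕ) : ℝ :=
  ⨅ a : {a : Fin N → ℂ // a ≠ 0},
    (star a.1 ⬝ᵥ ((covMatrix (γ / 2) N ⊙ covMatrix (γ / 2) N) *ᵥ a.1)).re /
      (star a.1 ⬝ᵥ (covMatrix (γ / 2) N *ᵥ a.1)).re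

theorem covMatrix_eq (γ : ℝ) (N : ℕ) :
    covMatrix (γ / 2) N = (P.MP_271f9a_pr.Rm γ N).map (fun x : ℝ => (x : ℂ)) := by
  ext i j
  simp only [covMatrix, fbmCov, P.MP_271f9a_pr.Rm, P.MP_271f9a_pr.G, Matrix.of_apply,
    Matrix.map_apply]
  rw [show 2 * (γ / 2) = γ by ring]
  congr 1
  ring

theorem form_snoc {N : ℕ} (M : Matrix (Fin (N + 1)) (Fin (N + 1)) ℂ) (a : Fin N → ℂ) :
    star (Fin.snoc a 0 : Fin (N + 1) → ℂ) ⬝ᵥ (M *ᵥ (Fin.snoc a 0 : Fin (N + 1) → ℂ)) =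
      star a ⬝ᵥ (M.submatrix Fin.castSucc Fin.castSucc *ᵥ a) := by
  simp [dotProduct, Matrix.mulVec, Fin.sum_univ_castSucc]

/-- For every `γ ∈ (1,2)` the limit `κ(γ)` exists and is positive, with an explicit lower bound. -/
theorem result (γ : ℝ) (h1 : 1 < γ) (h2 : γ < 2) :
    ∃ κ : ℝ, Tendsto (kappaN γ) atTop (𝓝 κ) ∧ 0 < κ ∧
      (7 - 4 * (2 : ℝ) ^ γ + (3 : ℝ) ^ γ) / 2 ≤ κ := by
  have hq : ∀ (N : ℕ) (a : {a : Fin N → ℂ // a ≠ 0}), P.MP_271f9a_pr.cst γ ≤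
      (star a.1 ⬝ᵥ ((covMatrix (γ / 2) N ⊙ covMatrix (γ / 2) N) *ᵥ a.1)).re /
        (star a.1 ⬝ᵥ (covMatrix (γ / 2) N *ᵥ a.1)).re := by
    intro N a
    rw [covMatrix_eq]
    exact P.MP_271f9a_pr.quotient_ge γ h1 h2 N a.1 a.2
  have hne : ∀ N : ℕ, Nonempty {a : Fin (N + 1) → ℂ // a ≠ 0} := fun N =>
    ⟨⟨fun _ => 1, fun h => one_ne_zero (congrFun h 0)⟩⟩
  have hlow : ∀ N, P.MP_271f9a_pr.cst γ ≤ kappaN γ (N + 1) := fun N =>
    haveI := hne N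
    le_ciInf (hq (N + 1))
  have hanti : Antitone (fun N => kappaN γ (N + 1)) := by
    apply antitone_nat_of_succ_le
    intro N
    haveI := hne N
    apply le_ciInf
    intro a
    have ha : (Fin.snoc a.1 0 : Fin (N + 1 + 1) → ℂ) ≠ 0 := by
      intro h
      apply a.2
      funext i
      have := congrFun h i.castSucc
      simpa using this
    have hb : BddBelow (Set.range fun a : {a : Fin (N + 1 + 1) → ℂ // a ≠ 0} =>
        (star a.1 ⬝ᵥ ((covMatrix (γ / 2) (N + 1 + 1) ⊙ covMatrix (γ / 2) (N + 1 + 1)) *ᵥ a.1)).re /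
          (star a.1 ⬝ᵥ (covMatrix (γ / 2) (N + 1 + 1) *ᵥ a.1)).re) :=
      ⟨P.MP_271f9a_pr.cst γ, by rintro _ ⟨b, rfl⟩; exact hq _ b⟩
    refine (ciInf_le hb ⟨_, ha⟩).trans (le_of_eq ?_)
    simp only [form_snoc]
    rfl
  have hbdd : BddBelow (Set.range fun N => kappaN γ (N + 1)) :=
    ⟨P.MP_271f9a_pr.cst γ, by rintro _ ⟨N, rfl⟩; exact hlow N⟩
  have hlim := tendsto_atTop_ciInf hanti hbdd
  have hge : P.MP_271f9a_pr.cst γ ≤ ⨅ N, kappaN γ (N + 1) := le_ciInf hlow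
  exact ⟨_, (tendsto_add_atTop_iff_nat 1).mp hlim,
    lt_of_lt_of_le (P.MP_271f9a_pr.cst_pos γ h2) hge, hge⟩

end Pool.Agent.Results.MP_271f9a_pr.KappaPos
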